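/-
Groups of bounded exponent whose Schreier graphs have degree at most two are locally finite.
-/
import Pool.Agent.Lib.SCH.Main

set_option autoImplicit false

namespace Pool.Agent.Lib.MP_1f3970_old.LinearSchreierGraphs

/-- The neighbours of the point `x` under the set `S` of permutations: the points `s x` and `s⁻¹ x`
different from `x`, for `s` in `S` (no multiplicities). -/
def neighbours {X : Type*} (S : Set (Equiv.Perm X)) (x : X) : Set X :=
  {y | y ≠ x ∧ ∃ s ∈ S, s x = y ∨ s y = x}

/-- **Theorem.**  Let `S` be any set of permutations of a set `X` such that every point of `X` has at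
most two neighbours under `S`.  If the group generated by `S` has bounded exponent, then it is locally
finite. -/
theorem result {X : Type*} (S : Set (Equiv.Perm X)) (hS : ∀ x : X, (neighbours S x).encard ≤ 2)
    (n : ℕ) (hn : 0 < n) (hexp : ∀ g ∈ Subgroup.closure S, g ^ n = 1) :
    ∀ H : Subgroup (Equiv.Perm X), H ≤ Subgroup.closure S → H.FG → Finite H :=
  fun H hH hfg => Pool.Agent.SCH.main S hS hn hexp H hH hfg

end Pool.Agent.Lib.MP_1f3970_old.LinearSchreierGraphs
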