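/-
Groups of bounded exponent: no long narrow balls in Schreier graphs; permutations of the integers of
bounded displacement.
-/
import Pool.Agent.Lib.QLN.AllB

set_option autoImplicit false

namespace Pool.Agent.Lib.MP_1f3970_old.NarrowSchreierGraphs

/-- In the Schreier graph of the generators `e`, the point `y` can be reached from the point `x` by a
path with at most `r` edges. -/
def Within {G X : Type*} [Group G] [MulAction G X] {m : ℕ} (e : Fin m → G) : ℕ → X → X → Prop
  | 0, x, y => x = y
  | r + 1, x, y => ∃ z, Within e r x z ∧ (z = y ∨ ∃ i, e i • z = y ∨ e i • y = z)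

/-- The ball of radius `R` around `x` in the Schreier graph is `K`-narrow: some `φ : X → ℤ` moves the
ends of each edge of the ball at most `K` apart and takes each value at most `K` times in the ball. -/
def Narrow {G X : Type*} [Group G] [MulAction G X] {m : ℕ} (e : Fin m → G) (K R : ℕ) (x : X) : Prop :=
  ∃ φ : X → ℤ, (∀ y z : X, Within e R x y → Within e R x z → Within e 1 y z →
    |φ y - φ z| ≤ (K : ℤ)) ∧ ∀ k : ℤ, {y | Within e R x y ∧ φ y = k}.encard ≤ (K : ℕ∞)

theorem within_eq {G X : Type*} [Group G] [MulAction G X] {m : ℕ} (e : Fin m → G) (r : ℕ) (x y : X) :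
    Within e r x y ↔ Pool.Agent.QLN.Within (Set.range e) r x y := by
  induction r generalizing y with
  | zero => exact Iff.rfl
  | succ r ih =>
    constructor
    · rintro ⟨z, hz, h | ⟨i, h⟩⟩
      · exact ⟨z, (ih z).1 hz, Or.inl h⟩
      · exact ⟨z, (ih z).1 hz, Or.inr ⟨e i, ⟨i, rfl⟩, h⟩⟩
    · rintro ⟨z, hz, h | ⟨s, ⟨i, rfl⟩, h⟩⟩
      · exact ⟨z, (ih z).2 hz, Or.inl h⟩
      · exact ⟨z, (ih z).2 hz, Or.inr ⟨i, h⟩⟩

theorem narrow_eq {G X : Type*} [Group G] [MulAction G X] {m : ℕ} (e : Fin m → G) (K R : ℕ) (x : X) :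
    Narrow e K R x ↔ Pool.Agent.QLN.Narrow (Set.range e) K R x := by
  unfold Narrow Pool.Agent.QLN.Narrow
  simp only [within_eq]

/-- **Theorem.**  Let `m`, `n`, `K` be given, `n > 0`.  There is `R` such that for each `M` there is `N`
with the following property.  Let `G` be a group with `m` generators in which `g ^ n = 1` for all `g`,
acting on `X` such that each orbit with more than `M` points contains the centre of a `K`-narrow ball of
radius `R` of the Schreier graph.  Then all orbits have at most `N` points and, if the action is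
faithful, `G` has at most `N` elements.
In particular there is `N` such that every group generated by `m` permutations of the integers of
displacement at most `K`, in which `g ^ n = 1` for all `g`, has at most `N` elements. -/
theorem result.{u, v} (m n K : ℕ) (hn : 0 < n) :
    (∃ R : ℕ, ∀ M : ℕ, ∃ N : ℕ, ∀ (G : Type u) (X : Type v) [Group G] [MulAction G X]
      (e : Fin m → G), Subgroup.closure (Set.range e) = ⊤ → (∀ g : G, g ^ n = 1) →
      (∀ x : X, (M : ℕ∞) < (MulAction.orbit G x).encard →
        ∃ y ∈ MulAction.orbit G x, Narrow e K R y) →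
      (∀ x : X, (MulAction.orbit G x).encard ≤ (N : ℕ∞)) ∧
        (FaithfulSMul G X → Finite G ∧ Nat.card G ≤ N)) ∧
    ∃ N : ℕ, ∀ e : Fin m → Equiv.Perm ℤ, (∀ i j, |e i j - j| ≤ (K : ℤ)) →
      (∀ g ∈ Subgroup.closure (Set.range e), g ^ n = 1) →
      Finite (Subgroup.closure (Set.range e)) ∧ Nat.card (Subgroup.closure (Set.range e)) ≤ N := by
  refine ⟨?_, ?_⟩
  · obtain ⟨R, hR⟩ := Pool.Agent.QLN.no_long_narrow.{u, v} m n K hn
    obtain ⟨N', hN'⟩ := Pool.Agent.QLN.ball_card'.{u, v} m R
    refine ⟨R, fun M => ⟨max (max M N') ((max M N').factorial ^ ((max M N').factorial ^ m)),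
      fun G X _ _ e hgen hexp hX => ?_⟩⟩
    have horb : ∀ x : X, (MulAction.orbit G x).encard ≤ (max M N' : ℕ) :=
      Pool.Agent.QLN.orbit_final e R M N' (hN' G X e) (Narrow e K R)
        (fun x hx z hz => hR G X e hgen hexp x ((narrow_eq e K R x).1 hx) z hz) hX
    refine ⟨fun x => (horb x).trans (by exact_mod_cast le_max_left _ _), fun _ => ?_⟩
    obtain ⟨h1, h2⟩ := Pool.Agent.QLN.card_of_bounded (X := X) e hgen horb
    exact ⟨h1, h2.trans (le_max_right _ _)⟩
  · obtain ⟨R, hR⟩ := Pool.Agent.QLN.no_long_narrow.{0, 0} m n (K + 1) hn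
    obtain ⟨N', hN'⟩ := Pool.Agent.QLN.ball_card'.{0, 0} m R
    refine ⟨(max 0 N').factorial ^ ((max 0 N').factorial ^ m), fun e he hexp => ?_⟩
    let L : Subgroup (Equiv.Perm ℤ) := Subgroup.closure (Set.range e)
    let e' : Fin m → L := fun i => ⟨e i, Subgroup.subset_closure ⟨i, rfl⟩⟩
    have hgen : Subgroup.closure (Set.range e') = ⊤ := by
      have h1 : Set.range e' = ((↑) : L → Equiv.Perm ℤ) ⁻¹' Set.range e := by
        ext g
        constructor
        · rintro ⟨i, rfl⟩; exact ⟨i, rfl⟩
        · rintro ⟨i, hi⟩; exact ⟨i, Subtype.ext hi⟩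
      rw [h1]
      exact Subgroup.closure_closure_coe_preimage
    refine Pool.Agent.QLN.card_of_bounded (X := ℤ) e' hgen
      (Pool.Agent.QLN.orbit_final e' R 0 N' (hN' L ℤ e')
      (Pool.Agent.QLN.Narrow (Set.range e') (K + 1) R)
      (fun x hx z hz => hR L ℤ e' hgen (fun g => Subtype.ext (by
        rw [Subgroup.coe_pow]; exact hexp g g.2)) x hx z hz)
      fun x _ => ⟨x, MulAction.mem_orbit_self x,
        Pool.Agent.QLN.narrow_int (Set.range e') (K + 1) (by omega) ?_ R x⟩)
    rintro _ ⟨i, rfl⟩ j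
    have := he i j
    change |e i j - j| ≤ _
    push_cast
    linarith

end Pool.Agent.Lib.MP_1f3970_old.NarrowSchreierGraphs
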